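import Mathlib

/-!
# MP_86c582_an: shifts isolated among the transitive `ℤ^d`-shifts have zero entropy
-/

set_option autoImplicit false
open Filter Topology Set

namespace Pool.Agent.Results.MP_86c582_an.ZeroEntropy

/-- A configuration `ℤ^d → ℤ` (its alphabet is a finite subset of `ℤ`, see `IsShift`). -/
abbrev Conf (d : ℕ) := (Fin d → ℤ) → ℤ

variable {d : ℕ}

/-- `(σ^u x)_v = x_{u+v}`. -/
def sh (u : Fin d → ℤ) (x : Conf d) : Conf d := fun v => x (u + v)

open Classical in
/-- `δ(x,y) = 2^{-min {‖n‖_∞ : x_n ≠ y_n}}`, and `δ(x,x) = 0`. -/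
noncomputable def delta (x y : Conf d) : ℝ :=
  if x = y then 0
  else (1 / 2 : ℝ) ^ (sInf {k : ℕ | ∃ n : Fin d → ℤ, (∀ i, |n i| ≤ k) ∧ x n ≠ y n})

/-- A `d`-dimensional shift: a compact, shift-invariant set of configurations over a finite
alphabet. -/
def IsShift (X : Set (Conf d)) : Prop :=
  (∃ A : Finset ℤ, ∀ x ∈ X, ∀ v, x v ∈ A) ∧ IsCompact X ∧ ∀ u, ∀ x ∈ X, sh u x ∈ X

/-- `X ∈ 𝒯^d`: a transitive `d`-dimensional shift. -/
def IsTransitive (X : Set (Conf d)) : Prop :=
  IsShift X ∧ ∃ x ∈ X, X ⊆ closure (range fun u => sh u x)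

/-- The Hausdorff distance `δ_H`. -/
noncomputable def deltaH (X Z : Set (Conf d)) : ℝ :=
  max (⨆ x : X, ⨅ z : Z, delta x.1 z.1) (⨆ z : Z, ⨅ x : X, delta x.1 z.1)

/-- `X` is isolated in `𝒯^d`. -/
def IsIsolated (X : Set (Conf d)) : Prop :=
  IsTransitive X ∧ ∃ ε > 0, ∀ Y : Set (Conf d), IsTransitive Y → deltaH X Y < ε → Y = X

/-- `ℒ_n(X)`: the patterns on `{0,…,n-1}^d` that appear in some configuration of `X`. -/
def Lang (n : ℕ) (X : Set (Conf d)) : Set ((Fin d → Fin n) → ℤ) :=
  {p | ∃ x ∈ X, ∃ u : Fin d → ℤ, p = fun v => x (u + fun i => ((v i : ℕ) : ℤ))}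

/-- `h(X) = h`, that is, `n^{-d} log |ℒ_n(X)| → h`. -/
def HasEntropy (X : Set (Conf d)) (h : ℝ) : Prop :=
  Tendsto (fun n : ℕ => Real.log ((Lang n X).ncard : ℝ) / (n : ℝ) ^ d) atTop (𝓝 h)

/-- box -/
noncomputable def Bx (d n : ℕ) : Finset (Fin d → ℤ) := Fintype.piFinset fun _ => Finset.Ico (0 : ℤ) n

lemma mem_Bx {v : Fin d → ℤ} {n : ℕ} : v ∈ Bx d n ↔ ∀ i, 0 ≤ v i ∧ v i < n := by
  simp [Bx]

/-- symmetric box -/
noncomputable def Sb (d k : ℕ) : Finset (Fin d → ℤ) := Fintype.piFinset fun _ => Finset.Icc (-(k : ℤ)) k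

lemma mem_Sb {v : Fin d → ℤ} {k : ℕ} : v ∈ Sb d k ↔ ∀ i, |v i| ≤ k := by
  simp [Sb, abs_le]

/-! ### Weights -/

/-- A nonzero function on a box is detected by some positive character. -/
lemma exists_char (M : ℕ) (f : (Fin d → ℤ) → ℝ) (hf : ∃ v ∈ Bx d M, f v ≠ 0) :
    ∃ t : Fin d → ℝ, (∀ i, 0 < t i) ∧ ∑ v ∈ Bx d M, f v * ∏ i, t i ^ v i ≠ 0 := by
  by_contra hcon
  push Not at hcon
  obtain ⟨v₀, hv₀, hne⟩ := hf
  let m : (Fin d → ℤ) → (Fin d →₀ ℕ) := fun v => Finsupp.equivFunOnFinite.symm fun i => (v i).toNat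
  let p : MvPolynomial (Fin d) ℝ := ∑ v ∈ Bx d M, MvPolynomial.monomial (m v) (f v)
  have hp : p = 0 := by
    apply MvPolynomial.funext_set (fun _ => Ioi (0 : ℝ)) (fun _ => Ioi_infinite _)
    intro x hx
    have hpos : ∀ i, 0 < x i := fun i => hx i (mem_univ i)
    rw [map_zero, ← hcon x hpos]
    simp only [p, map_sum]
    refine Finset.sum_congr rfl fun v hv => ?_
    rw [MvPolynomial.eval_monomial]
    congr 1
    rw [Finsupp.prod_fintype _ _ (fun i => pow_zero _)]
    refine Finset.prod_congr rfl fun i _ => ?_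
    have h0 := (mem_Bx.1 hv i).1
    conv_rhs => rw [← Int.toNat_of_nonneg h0]
    rw [zpow_natCast]
    rfl
  have hc : MvPolynomial.coeff (m v₀) p = f v₀ := by
    simp only [p, MvPolynomial.coeff_sum, MvPolynomial.coeff_monomial]
    rw [Finset.sum_eq_single v₀]
    · simp
    · intro v hv hvv
      rw [if_neg]
      intro h
      apply hvv
      funext i
      have h1 : (m v) i = (m v₀) i := by rw [h]
      have h2 : (v i).toNat = (v₀ i).toNat := h1
      have := (mem_Bx.1 hv i).1
      have := (mem_Bx.1 hv₀ i).1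
      omega
    · intro h
      exact absurd hv₀ h
  rw [hp, MvPolynomial.coeff_zero] at hc
  exact hne hc.symm

/-- legality -/
def Legal (n : ℕ) (x z : Conf d) : Prop := ∀ u, ∃ t, ∀ v ∈ Bx d n, z (u + v) = x (t + v)

/-- The boundary hypothesis. -/
def SameBd (n M : ℕ) (x : Conf d) (w w' : Fin d → ℤ) : Prop :=
  ∀ v ∈ Bx d M, (∃ i, v i < n ∨ (M : ℤ) - n ≤ v i) → x (w + v) = x (w' + v)

/-- replacing the pattern at `u` -/
noncomputable def repl (M : ℕ) (x z : Conf d) (b u : Fin d → ℤ) : Conf d :=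
  fun v => if v - u ∈ Bx d M then x (b + (v - u)) else z v

lemma repl_legal {n M : ℕ} {x z : Conf d} {a b u : Fin d → ℤ} (hbd : SameBd n M x a b)
    (hz : Legal n x z) (hP : ∀ v ∈ Bx d M, z (u + v) = x (a + v)) :
    Legal n x (repl M x z b u) := by
  intro c
  by_cases h : ∀ v ∈ Bx d n, c + v - u ∈ Bx d M
  · refine ⟨b + (c - u), fun v hv => ?_⟩
    unfold repl
    rw [if_pos (h v hv)]
    congr 1
    abel
  · push Not at h
    obtain ⟨v₁, hv₁, hn⟩ := h
    obtain ⟨t, ht⟩ := hz c
    refine ⟨t, fun v hv => ?_⟩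
    rw [← ht v hv]
    unfold repl
    split_ifs with hin
    · have h1 := hP _ hin
      rw [show u + (c + v - u) = c + v by abel] at h1
      rw [h1]
      symm
      apply hbd _ hin
      rw [mem_Bx] at hn hv₁ hv hin
      push Not at hn
      obtain ⟨i, hi⟩ := hn
      refine ⟨i, ?_⟩
      have a1 := hv₁ i
      have a2 := hv i
      have a3 := hin i
      simp only [Pi.sub_apply, Pi.add_apply] at hi a3 ⊢
      by_cases h0 : 0 ≤ c i + v₁ i - u i
      · have := hi h0
        right; omega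
      · left; omega
    · rfl

/-- The finite stage of the modification. -/
lemma stage {x : Conf d} {A : Finset ℤ} (hA : ∀ v, x v ∈ A) {n M : ℕ} {a b : Fin d → ℤ}
    (hbd : SameBd n M x a b) {t : Fin d → ℝ} (ht : ∀ i, 0 < t i)
    (hneg : ∑ v ∈ Bx d M, ((x (b + v) : ℝ) - x (a + v)) * ∏ i, t i ^ v i < 0)
    (R B : Finset (Fin d → ℤ)) :
    ∃ z : Conf d, (∀ v, z v ∈ A) ∧ (∀ v ∈ R, z v = x v) ∧ Legal n x z ∧
      ∀ u, (∀ v ∈ Bx d M, u + v ∈ B ∧ u + v ∉ R) → ∃ v ∈ Bx d M, z (u + v) ≠ x (a + v) := by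
  classical
  set S : Set (Conf d) := {z | (∀ v, z v ∈ A) ∧ (∀ v, v ∉ B \ R → z v = x v) ∧ Legal n x z}
    with hS
  have hfin : S.Finite := by
    apply Set.Finite.of_finite_image (f := fun z : Conf d => fun v : B => z v.1)
    · apply (Set.Finite.pi' (t := fun _ : B => (A : Set ℤ)) fun _ => A.finite_toSet).subset
      rintro _ ⟨z, hz, rfl⟩ v
      exact hz.1 v
    · intro z hz z' hz' h
      funext v
      by_cases hv : v ∈ B
      · exact congrFun h ⟨v, hv⟩
      · rw [hz.2.1 v (by simp [hv]), hz'.2.1 v (by simp [hv])]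
  have hne : S.Nonempty := ⟨x, hA, fun _ _ => rfl, fun u => ⟨u, fun _ _ => rfl⟩⟩
  let χ : (Fin d → ℤ) → ℝ := fun v => ∏ i, t i ^ v i
  have hχpos : ∀ v, 0 < χ v := fun v => Finset.prod_pos fun i _ => zpow_pos (ht i) _
  have hχ : ∀ u v, χ (u + v) = χ u * χ v := by
    intro u v
    simp only [χ, Pi.add_apply, ← Finset.prod_mul_distrib]
    exact Finset.prod_congr rfl fun i _ => zpow_add₀ (ht i).ne' _ _
  obtain ⟨z, hz, hmin⟩ := Set.exists_min_image S (fun z => ∑ v ∈ B, χ v * z v) hfin hne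
  refine ⟨z, hz.1, fun v hv => hz.2.1 v (by simp [hv]), hz.2.2, ?_⟩
  intro u hu
  by_contra hcon
  push Not at hcon
  have hmem : repl M x z b u ∈ S := by
    refine ⟨fun v => ?_, fun v hv => ?_, repl_legal hbd hz.2.2 hcon⟩
    · unfold repl
      split_ifs
      · exact hA _
      · exact hz.1 v
    · unfold repl
      rw [if_neg, hz.2.1 v hv]
      intro hin
      have := hu _ hin
      rw [show u + (v - u) = v by abel] at this
      exact hv (Finset.mem_sdiff.2 this)
  have h1 : ∑ v ∈ B, χ v * ((z v : ℤ) : ℝ) ≤ ∑ v ∈ B, χ v * ((repl M x z b u v : ℤ) : ℝ) :=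
    hmin _ hmem
  have h2 : ∑ v ∈ B, χ v * ((repl M x z b u v : ℤ) : ℝ) - ∑ v ∈ B, χ v * ((z v : ℤ) : ℝ) =
      χ u * ∑ v ∈ Bx d M, ((x (b + v) : ℝ) - x (a + v)) * χ v := by
    rw [← Finset.sum_sub_distrib, Finset.mul_sum]
    have hsub : (Bx d M).image (fun v => u + v) ⊆ B := by
      intro v hv
      obtain ⟨v', hv', rfl⟩ := Finset.mem_image.1 hv
      exact (hu v' hv').1
    rw [← Finset.sum_subset hsub]
    · rw [Finset.sum_image (fun _ _ _ _ h => add_left_cancel h)]
      refine Finset.sum_congr rfl fun v hv => ?_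
      have e : repl M x z b u (u + v) = x (b + v) := by
        unfold repl
        rw [if_pos (by rw [add_sub_cancel_left]; exact hv), add_sub_cancel_left]
      rw [e, hcon v hv, hχ]
      ring
    · intro v _ hv
      have e : repl M x z b u v = z v := by
        unfold repl
        rw [if_neg]
        intro hin
        exact hv (Finset.mem_image.2 ⟨_, hin, by abel⟩)
      rw [e]; ring
  have h3 : χ u * ∑ v ∈ Bx d M, ((x (b + v) : ℝ) - x (a + v)) * χ v < 0 :=
    mul_neg_of_pos_of_neg (hχpos u) hneg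
  linarith

/-- The limit of the modifications. -/
lemma limit {x : Conf d} {A : Finset ℤ} (hA : ∀ v, x v ∈ A) {n M : ℕ} {a b : Fin d → ℤ}
    (hbd : SameBd n M x a b) {t : Fin d → ℝ} (ht : ∀ i, 0 < t i)
    (hneg : ∑ v ∈ Bx d M, ((x (b + v) : ℝ) - x (a + v)) * ∏ i, t i ^ v i < 0)
    (R : Finset (Fin d → ℤ)) :
    ∃ z : Conf d, (∀ v, z v ∈ A) ∧ (∀ v ∈ R, z v = x v) ∧ Legal n x z ∧
      ∀ u, (∀ v ∈ Bx d M, u + v ∉ R) → ∃ v ∈ Bx d M, z (u + v) ≠ x (a + v) := by
  classical
  choose z hzA hzR hzL hzP using fun k : ℕ => stage hA hbd ht hneg R (Sb d k)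
  have hK : IsCompact (Set.pi univ fun _ : Fin d → ℤ => (A : Set ℤ)) :=
    isCompact_univ_pi fun _ => A.finite_toSet.isCompact
  obtain ⟨y, hy, φ, hφ, hlim⟩ := hK.tendsto_subseq (x := z) (fun k v _ => hzA k v)
  have hloc : ∀ s : Finset (Fin d → ℤ), ∀ᶠ k in atTop, ∀ v ∈ s, z (φ k) v = y v := by
    intro s
    rw [Filter.eventually_all_finset]
    intro v _
    have h1 := (tendsto_pi_nhds.1 hlim) v
    exact h1.eventually (IsOpen.mem_nhds (isOpen_discrete {y v}) rfl)
  refine ⟨y, fun v => hy v (mem_univ v), ?_, ?_, ?_⟩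
  · intro v hv
    obtain ⟨k, hk⟩ := (hloc {v}).exists
    rw [← hk v (Finset.mem_singleton_self v)]
    exact hzR _ v hv
  · intro u
    obtain ⟨k, hk⟩ := (hloc ((Bx d n).image fun v => u + v)).exists
    obtain ⟨t', ht'⟩ := hzL (φ k) u
    exact ⟨t', fun v hv => by rw [← hk _ (Finset.mem_image_of_mem _ hv)]; exact ht' v hv⟩
  · intro u hu
    obtain ⟨K, hKK⟩ : ∃ K : ℕ, ∀ v ∈ Bx d M, u + v ∈ Sb d K := by
      refine ⟨∑ i, (u i).natAbs + M, fun v hv => mem_Sb.2 fun i => ?_⟩
      have h1 : (u i).natAbs ≤ ∑ i, (u i).natAbs :=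
        Finset.single_le_sum (f := fun i => (u i).natAbs) (fun _ _ => Nat.zero_le _)
          (Finset.mem_univ i)
      have h2 := mem_Bx.1 hv i
      have h3 : (((∑ i, (u i).natAbs + M : ℕ)) : ℤ) = ((∑ i, (u i).natAbs : ℕ) : ℤ) + M := by
        push_cast; ring
      rw [h3, Pi.add_apply, abs_le]
      omega
    obtain ⟨k, hk, hk'⟩ := ((hloc ((Bx d M).image fun v => u + v)).and
      (eventually_ge_atTop K)).exists
    have hle : K ≤ φ k := hk'.trans hφ.le_apply
    obtain ⟨v, hv, hne⟩ := hzP (φ k) u (fun v hv => ⟨by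
      have := mem_Sb.1 (hKK v hv)
      exact mem_Sb.2 fun i => (this i).trans (by exact_mod_cast hle), hu v hv⟩)
    exact ⟨v, hv, by rwa [hk _ (Finset.mem_image_of_mem _ hv)] at hne⟩

/-! ### The Hausdorff distance -/

lemma delta_nonneg (x y : Conf d) : 0 ≤ delta x y := by
  unfold delta
  split_ifs
  · exact le_rfl
  · positivity

lemma delta_le {x y : Conf d} {k : ℕ} (h : ∀ v ∈ Sb d k, x v = y v) :
    delta x y ≤ (1 / 2 : ℝ) ^ k := by
  unfold delta
  split_ifs with hxy
  · positivity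
  · apply pow_le_pow_of_le_one (by norm_num) (by norm_num)
    have hne : {k : ℕ | ∃ n : Fin d → ℤ, (∀ i, |n i| ≤ k) ∧ x n ≠ y n}.Nonempty := by
      have : ∃ v, x v ≠ y v := by
        by_contra hcon
        push Not at hcon
        exact hxy (funext hcon)
      obtain ⟨v, hv⟩ := this
      refine ⟨∑ i, (v i).natAbs, v, fun i => ?_, hv⟩
      have h1 : (v i).natAbs ≤ ∑ i, (v i).natAbs :=
        Finset.single_le_sum (f := fun i => (v i).natAbs) (fun _ _ => Nat.zero_le _)
          (Finset.mem_univ i)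
      rw [Int.abs_eq_natAbs]
      exact_mod_cast h1
    apply le_csInf hne
    rintro m ⟨v, hv, hvn⟩
    by_contra hcon
    push Not at hcon
    apply hvn
    apply h v
    rw [mem_Sb]
    intro i
    exact (hv i).trans (by exact_mod_cast hcon.le)

lemma deltaH_le {X Y : Set (Conf d)} (hX : X.Nonempty) (hY : Y.Nonempty) {k : ℕ}
    (h1 : ∀ x ∈ X, ∃ y ∈ Y, ∀ v ∈ Sb d k, x v = y v)
    (h2 : ∀ y ∈ Y, ∃ x ∈ X, ∀ v ∈ Sb d k, x v = y v) : deltaH X Y ≤ (1 / 2 : ℝ) ^ k := by
  haveI := hX.to_subtype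
  haveI := hY.to_subtype
  unfold deltaH
  apply max_le
  · apply ciSup_le
    intro x
    obtain ⟨y, hy, h⟩ := h1 x.1 x.2
    refine (ciInf_le ⟨0, ?_⟩ (⟨y, hy⟩ : Y)).trans (delta_le h)
    rintro _ ⟨z, rfl⟩
    exact delta_nonneg _ _
  · apply ciSup_le
    intro y
    obtain ⟨x, hx, h⟩ := h2 y.1 y.2
    refine (ciInf_le ⟨0, ?_⟩ (⟨x, hx⟩ : X)).trans (delta_le h)
    rintro _ ⟨z, rfl⟩
    exact delta_nonneg _ _

lemma closure_agree {ι : Type} (f : ι → Conf d) {z : Conf d} (hz : z ∈ closure (range f))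
    (s : Finset (Fin d → ℤ)) : ∃ u, ∀ v ∈ s, f u v = z v := by
  have hopen : IsOpen (⋂ v ∈ s, (fun w : Conf d => w v) ⁻¹' {z v}) :=
    isOpen_biInter_finset fun v _ => (isOpen_discrete _).preimage (continuous_apply v)
  obtain ⟨w, hw, ⟨u, rfl⟩⟩ := mem_closure_iff.1 hz _ hopen (by simp)
  refine ⟨u, fun v hv => ?_⟩
  simp only [mem_iInter] at hw
  exact hw v hv

lemma sh_continuous (u : Fin d → ℤ) : Continuous (sh u : Conf d → Conf d) :=
  continuous_pi fun v => continuous_apply (u + v)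

lemma oc_transitive {y : Conf d} {A : Finset ℤ} (hA : ∀ v, y v ∈ A) :
    IsTransitive (closure (range fun u => sh u y)) := by
  have hsub : closure (range fun u => sh u y) ⊆ Set.pi univ fun _ => (A : Set ℤ) := by
    apply closure_minimal
    · rintro _ ⟨u, rfl⟩ v _
      exact hA _
    · exact isClosed_set_pi fun _ _ => isClosed_discrete _
  refine ⟨⟨⟨A, fun x hx v => hsub hx v (mem_univ v)⟩, ?_, ?_⟩, y, ?_, le_rfl⟩
  · exact (isCompact_univ_pi fun _ => A.finite_toSet.isCompact).of_isClosed_subset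
      isClosed_closure hsub
  · intro u x hx
    have h1 : sh u x ∈ closure (sh u '' (range fun u => sh u y)) :=
      (image_closure_subset_closure_image (sh_continuous u)) (mem_image_of_mem _ hx)
    refine closure_mono ?_ h1
    rintro _ ⟨_, ⟨w, rfl⟩, rfl⟩
    exact ⟨w + u, by funext v; simp [sh, add_assoc]⟩
  · exact subset_closure ⟨0, by funext v; simp [sh]⟩

lemma isolated_imp {X : Set (Conf d)} (h : IsIsolated X) {x : Conf d} (hx : x ∈ X)
    (hd : X ⊆ closure (range fun u => sh u x)) : ∃ n : ℕ, ∀ (y : Conf d) (A : Finset ℤ),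
      (∀ v, y v ∈ A) → Legal n x y → Legal n y x → x ∈ closure (range fun u => sh u y) := by
  obtain ⟨⟨⟨_, _, hinv⟩, _⟩, ε, hε, hiso⟩ := h
  obtain ⟨k, hk⟩ := exists_pow_lt_of_lt_one hε (show (1 / 2 : ℝ) < 1 by norm_num)
  refine ⟨2 * k + 1, fun y A hA hxy hyx => ?_⟩
  have key : ∀ (x y : Conf d), Legal (2 * k + 1) x y → ∀ z ∈ closure (range fun u => sh u y),
      ∃ t, ∀ v ∈ Sb d k, sh t x v = z v := by
    intro x y hxy z hz
    obtain ⟨u, hu⟩ := closure_agree _ hz (Sb d k)
    obtain ⟨t, ht⟩ := hxy (u - fun _ => (k : ℤ))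
    refine ⟨t + fun _ => (k : ℤ), fun v hv => ?_⟩
    have hv' : v + (fun _ => (k : ℤ)) ∈ Bx d (2 * k + 1) := by
      rw [mem_Bx]
      intro i
      have := abs_le.1 (mem_Sb.1 hv i)
      simp only [Pi.add_apply]
      push_cast
      constructor <;> linarith [this.1, this.2]
    have h1 := ht _ hv'
    rw [← hu v hv]
    simp only [sh]
    rw [show u + v = u - (fun _ => (k : ℤ)) + (v + fun _ => (k : ℤ)) by abel, h1]
    congr 1
    abel
  have hX : closure (range fun u => sh u y) = X := by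
    apply hiso _ (oc_transitive hA)
    have hne : (closure (range fun u => sh u y)).Nonempty :=
      ⟨y, subset_closure ⟨0, by funext v; simp [sh]⟩⟩
    refine lt_of_le_of_lt (deltaH_le ⟨x, hx⟩ hne ?_ ?_) hk
    · intro z hz
      obtain ⟨t, ht⟩ := key y x hyx z (hd hz)
      exact ⟨sh t y, subset_closure ⟨t, rfl⟩, fun v hv => (ht v hv).symm⟩
    · intro z hz
      obtain ⟨t, ht⟩ := key x y hxy z hz
      exact ⟨sh t x, hinv _ _ hx, ht⟩
  rw [hX]
  exact hx

/-- the occurrences of the pattern of `x` at `w` -/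
def Occ (M : ℕ) (x : Conf d) (w : Fin d → ℤ) : Set (Fin d → ℤ) :=
  {u | ∀ v ∈ Bx d M, x (u + v) = x (w + v)}

/-- Finitely many positions see all the patterns. -/
lemma exists_positions {x : Conf d} {A : Finset ℤ} (hA : ∀ v, x v ∈ A) (n : ℕ) :
    ∃ T : Finset (Fin d → ℤ), ∀ u, ∃ t ∈ T, ∀ v ∈ Bx d n, x (u + v) = x (t + v) := by
  classical
  have hfin : (range fun u : Fin d → ℤ => fun v : Bx d n => x (u + v.1)).Finite := by
    apply (Set.Finite.pi' (t := fun _ : Bx d n => (A : Set ℤ)) fun _ => A.finite_toSet).subset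
    rintro _ ⟨u, rfl⟩ v
    exact hA _
  haveI := hfin.fintype
  refine ⟨Finset.univ.image (rangeSplitting fun u : Fin d → ℤ => fun v : Bx d n => x (u + v.1)),
    fun u => ?_⟩
  refine ⟨_, Finset.mem_image_of_mem _ (Finset.mem_univ ⟨_, ⟨u, rfl⟩⟩), fun v hv => ?_⟩
  have h := apply_rangeSplitting (fun u : Fin d → ℤ => fun v : Bx d n => x (u + v.1)) ⟨_, ⟨u, rfl⟩⟩
  exact (congrFun h ⟨v, hv⟩).symm

lemma main_core {x : Conf d} {A : Finset ℤ} (hA : ∀ v, x v ∈ A) {n : ℕ}
    (hiso : ∀ (y : Conf d) (A : Finset ℤ), (∀ v, y v ∈ A) → Legal n x y → Legal n y x →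
      x ∈ closure (range fun u => sh u y)) {M : ℕ} {a b : Fin d → ℤ} (hbd : SameBd n M x a b)
    (ha : (Occ M x a).Infinite) {t : Fin d → ℝ} (ht : ∀ i, 0 < t i)
    (hneg : ∑ v ∈ Bx d M, ((x (b + v) : ℝ) - x (a + v)) * ∏ i, t i ^ v i < 0) : False := by
  classical
  obtain ⟨T, hT⟩ := exists_positions hA n
  obtain ⟨y, hyA, hyR, hyL, hyP⟩ := limit hA hbd ht hneg
    (T.biUnion fun t => (Bx d n).image fun v => t + v)
  have hxy : Legal n y x := by
    intro u
    obtain ⟨t, ht, h⟩ := hT u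
    refine ⟨t, fun v hv => ?_⟩
    rw [h v hv, hyR]
    exact Finset.mem_biUnion.2 ⟨t, ht, Finset.mem_image_of_mem _ hv⟩
  have hcl := hiso y A hyA hyL hxy
  -- the finitely many occurrences in `y`
  set R := T.biUnion fun t => (Bx d n).image fun v => t + v with hR
  set F := R.biUnion fun r => (Bx d M).image fun v => r - v with hF
  obtain ⟨U, hU, hUc⟩ := ha.exists_subset_card_eq (F.card + 1)
  obtain ⟨t', ht'⟩ := closure_agree _ hcl (U.biUnion fun u => (Bx d M).image fun v => u + v)
  have hsub : U.image (fun u => t' + u) ⊆ F := by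
    intro c hc
    obtain ⟨u, hu, rfl⟩ := Finset.mem_image.1 hc
    by_contra hcF
    obtain ⟨v, hv, hne⟩ := hyP (t' + u) (by
      intro v hv hin
      apply hcF
      rw [hF]
      exact Finset.mem_biUnion.2 ⟨_, hin, Finset.mem_image.2 ⟨v, hv, by abel⟩⟩)
    apply hne
    have h1 := ht' (u + v) (Finset.mem_biUnion.2 ⟨u, hu, Finset.mem_image_of_mem _ hv⟩)
    simp only [sh] at h1
    rw [add_assoc, h1]
    exact hU hu v hv
  have hcard := Finset.card_le_card hsub
  rw [Finset.card_image_of_injective _ (fun _ _ h => add_left_cancel h), hUc] at hcard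
  omega

/-- For an isolated shift, the patterns occurring infinitely often are determined by their
boundaries. -/
lemma determined {x : Conf d} {A : Finset ℤ} (hA : ∀ v, x v ∈ A) {n : ℕ}
    (hiso : ∀ (y : Conf d) (A : Finset ℤ), (∀ v, y v ∈ A) → Legal n x y → Legal n y x →
      x ∈ closure (range fun u => sh u y)) {M : ℕ} {a b : Fin d → ℤ} (hbd : SameBd n M x a b)
    (ha : (Occ M x a).Infinite) (hb : (Occ M x b).Infinite) :
    ∀ v ∈ Bx d M, x (a + v) = x (b + v) := by
  by_contra hcon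
  push Not at hcon
  obtain ⟨v₀, hv₀, hne⟩ := hcon
  obtain ⟨t, ht, hsum⟩ := exists_char M (fun v => (x (b + v) : ℝ) - x (a + v)) ⟨v₀, hv₀, by
    intro h
    apply hne
    have : (x (a + v₀) : ℝ) = x (b + v₀) := by linarith
    exact_mod_cast this⟩
  rcases lt_or_gt_of_ne hsum with h | h
  · exact main_core hA hiso hbd ha ht h
  · refine main_core hA hiso (a := b) (b := a) (fun v hv h => (hbd v hv h).symm) hb ht ?_
    have : ∑ v ∈ Bx d M, ((x (a + v) : ℝ) - x (b + v)) * ∏ i, t i ^ v i =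
        - ∑ v ∈ Bx d M, ((x (b + v) : ℝ) - x (a + v)) * ∏ i, t i ^ v i := by
      rw [← Finset.sum_neg_distrib]
      exact Finset.sum_congr rfl fun v _ => by ring
    rw [this]
    linarith

/-! ### Counting -/

/-- the pattern of `x` at `u` -/
def pat (N : ℕ) (x : Conf d) (u : Fin d → ℤ) : (Fin d → Fin N) → ℤ :=
  fun v => x (u + fun i => ((v i : ℕ) : ℤ))

/-- bad residues -/
def Bad (n M N a : ℕ) : Prop := a % M < n ∨ M ≤ a % M + n ∨ M * (N / M) ≤ a

open Classical in
lemma card_bad (n N : ℕ) {M : ℕ} (hM : 0 < M) :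
    (Finset.univ.filter fun a : Fin N => Bad n M N a).card ≤ 2 * n * (N / M) + M := by
  set T : Finset ℕ := ((Finset.range (N / M)) ×ˢ (Finset.range n ∪ Finset.Ico (M - n) M)).image
    (fun p => M * p.1 + p.2) ∪ Finset.Ico (M * (N / M)) N with hT
  have h1 : (Finset.univ.filter fun a : Fin N => Bad n M N a).card ≤ T.card := by
    apply Finset.card_le_card_of_injOn (fun a : Fin N => (a : ℕ))
    · intro a ha
      have ha' : Bad n M N a := by simpa using ha
      have hlt := a.2
      simp only [hT, Finset.coe_union, Finset.coe_image, mem_union, mem_image,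
        Finset.mem_coe, Finset.mem_product, Finset.mem_range, Finset.mem_union, Finset.mem_Ico]
      by_cases h : M * (N / M) ≤ a
      · right; exact ⟨h, hlt⟩
      · left
        refine ⟨((a : ℕ) / M, (a : ℕ) % M), ⟨?_, ?_⟩, Nat.div_add_mod _ _⟩
        · push Not at h
          exact (Nat.div_lt_iff_lt_mul hM).2 (by rw [mul_comm]; exact h)
        · have := Nat.mod_lt (a : ℕ) hM
          rcases ha' with h' | h' | h'
          · left; exact h'
          · right; simp only; omega
          · exact absurd h' h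
    · intro a _ b _ h
      exact Fin.ext h
  refine h1.trans ((Finset.card_union_le _ _).trans ?_)
  have h2 : (((Finset.range (N / M)) ×ˢ (Finset.range n ∪ Finset.Ico (M - n) M)).image
      (fun p => M * p.1 + p.2)).card ≤ (N / M) * (n + n) := by
    refine Finset.card_image_le.trans ?_
    rw [Finset.card_product, Finset.card_range]
    apply Nat.mul_le_mul_left
    refine (Finset.card_union_le _ _).trans ?_
    rw [Finset.card_range, Nat.card_Ico]
    omega
  have h3 : (Finset.Ico (M * (N / M)) N).card ≤ M := by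
    rw [Nat.card_Ico]
    have := Nat.div_add_mod N M
    have := Nat.mod_lt N hM
    omega
  have h4 : (N / M) * (n + n) = 2 * n * (N / M) := by ring
  omega

open Classical in
lemma card_thin (n N : ℕ) {M : ℕ} (hM : 0 < M) :
    (Finset.univ.filter fun v : Fin d → Fin N => ∃ i, Bad n M N (v i)).card ≤
      d * (2 * n * (N / M) + M) * N ^ (d - 1) := by
  have hsub : (Finset.univ.filter fun v : Fin d → Fin N => ∃ i, Bad n M N (v i)) ⊆
      Finset.univ.biUnion fun i : Fin d => Fintype.piFinset fun j : Fin d =>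
        if j = i then (Finset.univ.filter fun a : Fin N => Bad n M N a) else Finset.univ := by
    intro v hv
    obtain ⟨i, hi⟩ := (Finset.mem_filter.1 hv).2
    refine Finset.mem_biUnion.2 ⟨i, Finset.mem_univ i, Fintype.mem_piFinset.2 fun j => ?_⟩
    split_ifs with h
    · subst h
      exact Finset.mem_filter.2 ⟨Finset.mem_univ _, hi⟩
    · exact Finset.mem_univ _
  refine (Finset.card_le_card hsub).trans ((Finset.card_biUnion_le).trans ?_)
  have hone : ∀ i : Fin d, (Fintype.piFinset fun j : Fin d =>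
      if j = i then (Finset.univ.filter fun a : Fin N => Bad n M N a) else Finset.univ).card ≤
        (2 * n * (N / M) + M) * N ^ (d - 1) := by
    intro i
    rw [Fintype.card_piFinset, ← Finset.mul_prod_erase _ _ (Finset.mem_univ i), if_pos rfl]
    have : ∏ j ∈ Finset.univ.erase i, (if j = i then
        (Finset.univ.filter fun a : Fin N => Bad n M N a) else Finset.univ).card =
          N ^ (d - 1) := by
      rw [Finset.prod_congr rfl (g := fun _ => N)]
      · rw [Finset.prod_const, Finset.card_erase_of_mem (Finset.mem_univ i), Finset.card_univ,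
          Fintype.card_fin]
      · intro j hj
        rw [if_neg (Finset.ne_of_mem_erase hj), Finset.card_univ, Fintype.card_fin]
    rw [this]
    exact Nat.mul_le_mul_right _ (card_bad n N hM)
  refine (Finset.sum_le_sum fun i _ => hone i).trans ?_
  rw [Finset.sum_const, Finset.card_univ, Fintype.card_fin, smul_eq_mul, ← mul_assoc]

/-- The complexity bound. -/
lemma count {x : Conf d} {A : Finset ℤ} (hA : ∀ v, x v ∈ A) {n M : ℕ} (hM : 0 < M)
    (hdet : ∀ a b, SameBd n M x a b → (Occ M x a).Infinite → (Occ M x b).Infinite →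
      ∀ v ∈ Bx d M, x (a + v) = x (b + v)) :
    ∃ C : ℕ, ∀ N : ℕ, (range (pat N x)).ncard ≤
      C * N ^ d + A.card ^ (d * (2 * n * (N / M) + M) * N ^ (d - 1)) := by
  classical
  have hF : {w : Fin d → ℤ | ¬ (Occ M x w).Infinite}.Finite := by
    apply Set.Finite.of_finite_fibers (fun w : Fin d → ℤ => fun v : Bx d M => x (w + v.1))
    · apply (Set.Finite.pi' (t := fun _ : Bx d M => (A : Set ℤ)) fun _ => A.finite_toSet).subset
      rintro _ ⟨u, _, rfl⟩ v
      exact hA _
    · rintro _ ⟨w, hw, rfl⟩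
      refine (Set.not_infinite.1 hw).subset ?_
      rintro u ⟨_, hu⟩ v hv
      exact congrFun hu ⟨v, hv⟩
  refine ⟨hF.toFinset.card, fun N => ?_⟩
  set U : Set (Fin d → ℤ) := {u | ∃ k ∈ Bx d (N / M), ¬ (Occ M x (u + (M : ℤ) • k)).Infinite}
    with hU
  have hcU : (pat N x '' U).ncard ≤ hF.toFinset.card * N ^ d := by
    have hsub : U ⊆ (((Bx d (N / M)) ×ˢ hF.toFinset).image
        fun p : (Fin d → ℤ) × (Fin d → ℤ) => p.2 - (M : ℤ) • p.1 : Finset (Fin d → ℤ)) := by
      rintro u ⟨k, hk, hu⟩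
      rw [Finset.mem_coe, Finset.mem_image]
      exact ⟨(k, u + (M : ℤ) • k), Finset.mem_product.2 ⟨hk, hF.mem_toFinset.2 hu⟩, by simp⟩
    have h1 : (pat N x '' U).ncard ≤ U.ncard :=
      Set.ncard_image_le ((Finset.finite_toSet _).subset hsub)
    have h2 : U.ncard ≤ ((Bx d (N / M)) ×ˢ hF.toFinset).card := by
      refine (Set.ncard_le_ncard hsub (Finset.finite_toSet _)).trans ?_
      rw [Set.ncard_coe_finset]
      exact Finset.card_image_le
    have h3 : (Bx d (N / M)).card ≤ N ^ d := by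
      unfold Bx
      rw [Fintype.card_piFinset]
      simp only [Int.card_Ico, sub_zero, Int.toNat_natCast, Finset.prod_const, Finset.card_univ,
        Fintype.card_fin]
      exact Nat.pow_le_pow_left (Nat.div_le_self _ _) _
    rw [Finset.card_product] at h2
    refine h1.trans (h2.trans ?_)
    rw [mul_comm]
    exact Nat.mul_le_mul_left _ h3
  have hcV : (pat N x '' Uᶜ).ncard ≤
      A.card ^ (d * (2 * n * (N / M) + M) * N ^ (d - 1)) := by
    set E := Finset.univ.filter fun v : Fin d → Fin N => ∃ i, Bad n M N (v i) with hE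
    have hinj : Set.InjOn (fun p : (Fin d → Fin N) → ℤ => fun v : E => p v.1)
        (pat N x '' Uᶜ) := by
      rintro _ ⟨u, hu, rfl⟩ _ ⟨u', hu', rfl⟩ h
      have hEq : ∀ v ∈ E, pat N x u v = pat N x u' v := fun v hv => congrFun h ⟨v, hv⟩
      funext v
      by_cases hv : ∃ i, Bad n M N (v i)
      · exact hEq v (Finset.mem_filter.2 ⟨Finset.mem_univ _, hv⟩)
      · push Not at hv
        simp only [Bad, not_or, not_lt, not_le] at hv
        let k : Fin d → ℤ := fun i => (((v i : ℕ) / M : ℕ) : ℤ)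
        let r : Fin d → ℤ := fun i => (((v i : ℕ) % M : ℕ) : ℤ)
        have hk : k ∈ Bx d (N / M) := by
          rw [mem_Bx]
          intro i
          refine ⟨by positivity, ?_⟩
          have : (v i : ℕ) / M < N / M :=
            (Nat.div_lt_iff_lt_mul hM).2 (by rw [mul_comm]; exact (hv i).2.2)
          simp only [k]
          exact_mod_cast this
        have hr : r ∈ Bx d M := by
          rw [mem_Bx]
          intro i
          refine ⟨by positivity, ?_⟩
          have := Nat.mod_lt (v i : ℕ) hM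
          simp only [r]
          exact_mod_cast this
        have ha : (Occ M x (u + (M : ℤ) • k)).Infinite := by
          by_contra hcon
          exact hu ⟨k, hk, hcon⟩
        have hb : (Occ M x (u' + (M : ℤ) • k)).Infinite := by
          by_contra hcon
          exact hu' ⟨k, hk, hcon⟩
        have hbd : SameBd n M x (u + (M : ℤ) • k) (u' + (M : ℤ) • k) := by
          rintro s hs ⟨i, hi⟩
          have hlt : ∀ j, M * ((v j : ℕ) / M) + (s j).toNat < N := by
            intro j
            have h1 := mem_Bx.1 hs j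
            have h2 : (v j : ℕ) / M < N / M :=
              (Nat.div_lt_iff_lt_mul hM).2 (by rw [mul_comm]; exact (hv j).2.2)
            have h3 : M * ((v j : ℕ) / M + 1) ≤ M * (N / M) := Nat.mul_le_mul_left _ h2
            have h4 := Nat.div_mul_le_self N M
            rw [mul_comm] at h4
            rw [mul_add, mul_one] at h3
            omega
          let v' : Fin d → Fin N := fun j => ⟨M * ((v j : ℕ) / M) + (s j).toNat, hlt j⟩
          have hv' : v' ∈ E := by
            refine Finset.mem_filter.2 ⟨Finset.mem_univ _, i, ?_⟩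
            have h1 := mem_Bx.1 hs i
            have h2 : (M * ((v i : ℕ) / M) + (s i).toNat) % M = (s i).toNat := by
              rw [Nat.mul_add_mod, Nat.mod_eq_of_lt (by omega)]
            unfold Bad
            simp only [v']
            rw [h2]
            rcases hi with hi | hi
            · left; omega
            · right; left; omega
          have h1 := hEq v' hv'
          unfold pat at h1
          have h2 : (fun i => ((v' i : ℕ) : ℤ)) = (M : ℤ) • k + s := by
            funext j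
            have h1 := mem_Bx.1 hs j
            simp only [v', k, Pi.add_apply, Pi.smul_apply, smul_eq_mul]
            push_cast
            rw [Int.toNat_of_nonneg h1.1]
          rw [h2, ← add_assoc, ← add_assoc] at h1
          exact h1
        have h1 := hdet _ _ hbd ha hb r hr
        have h2 : (fun i => ((v i : ℕ) : ℤ)) = (M : ℤ) • k + r := by
          funext j
          simp only [k, r, Pi.add_apply, Pi.smul_apply, smul_eq_mul]
          exact_mod_cast (Nat.div_add_mod (v j : ℕ) M).symm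
        unfold pat
        rw [h2, ← add_assoc, ← add_assoc]
        exact h1
    rw [← Set.ncard_image_of_injOn hinj]
    have hsub : (fun p : (Fin d → Fin N) → ℤ => fun v : E => p v.1) '' (pat N x '' Uᶜ) ⊆
        (Fintype.piFinset fun _ : E => A : Finset (E → ℤ)) := by
      rintro _ ⟨_, ⟨u, _, rfl⟩, rfl⟩
      rw [Finset.mem_coe, Fintype.mem_piFinset]
      intro v
      exact hA _
    refine (Set.ncard_le_ncard hsub (Finset.finite_toSet _)).trans ?_
    rw [Set.ncard_coe_finset, Fintype.card_piFinset]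
    simp only [Finset.prod_const, Finset.card_univ, Fintype.card_coe]
    exact Nat.pow_le_pow_right (Finset.card_pos.2 ⟨_, hA 0⟩) (card_thin n N hM)
  have hun : range (pat N x) = pat N x '' U ∪ pat N x '' Uᶜ := by
    rw [← image_union, union_compl_self, image_univ]
  rw [hun]
  exact (Set.ncard_union_le _ _).trans (Nat.add_le_add hcU hcV)

/-! ### The limit -/

lemma entropy_of_bound (hd : 0 < d) {c n : ℕ} (hc : 0 < c) {f : ℕ → ℕ} (hf : ∀ N, 0 < f N)
    (h : ∀ M : ℕ, 0 < M → ∃ C : ℕ, ∀ N : ℕ,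
      f N ≤ C * N ^ d + c ^ (d * (2 * n * (N / M) + M) * N ^ (d - 1))) :
    Tendsto (fun N : ℕ => Real.log (f N : ℝ) / (N : ℝ) ^ d) atTop (𝓝 0) := by
  have hlc : 0 ≤ Real.log c := Real.log_natCast_nonneg c
  rw [Metric.tendsto_atTop]
  intro ε hε
  obtain ⟨M, hM⟩ := exists_nat_gt (2 * (d * (2 * n) * Real.log c) / ε)
  have hMpos : (0 : ℝ) < M := lt_of_le_of_lt (by positivity) hM
  have hMn : 0 < M := by exact_mod_cast hMpos
  have hM2 : d * (2 * n / M) * Real.log c < ε / 2 := by
    rw [div_lt_iff₀ hε] at hM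
    have : d * (2 * n / M) * Real.log c = (d * (2 * n) * Real.log c) / M := by ring
    rw [this, div_lt_iff₀ hMpos]
    linarith
  obtain ⟨C, hC⟩ := h M hMn
  have hlim : Tendsto (fun N : ℕ => (Real.log (C + 1) + d * Real.log N) / N +
      d * (2 * n / M + M / N) * Real.log c) atTop
      (𝓝 (0 + d * (2 * n / M + 0) * Real.log c)) := by
    apply Tendsto.add
    · have h1 : Tendsto (fun N : ℕ => Real.log (C + 1) / (N : ℝ) + d * (Real.log N / N)) atTop
          (𝓝 (0 + d * 0)) := by
        apply Tendsto.add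
        · exact tendsto_const_div_atTop_nhds_zero_nat _
        · apply Tendsto.const_mul
          have := Real.isLittleO_log_id_atTop.tendsto_div_nhds_zero
          exact this.comp tendsto_natCast_atTop_atTop
      rw [mul_zero, add_zero] at h1
      refine h1.congr fun N => ?_
      rw [add_div, mul_div_assoc]
    · apply Tendsto.mul_const
      apply Tendsto.const_mul
      exact tendsto_const_nhds.add (tendsto_const_div_atTop_nhds_zero_nat _)
  have hev : ∀ᶠ N : ℕ in atTop, (Real.log (C + 1) + d * Real.log N) / N +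
      d * (2 * n / M + M / N) * Real.log c < ε := by
    apply hlim.eventually_lt_const
    rw [zero_add, add_zero]
    linarith
  obtain ⟨N₀, hN₀⟩ := eventually_atTop.1 hev
  refine ⟨max N₀ 1, fun N hN => ?_⟩
  have hN1 : 1 ≤ N := (le_max_right _ _).trans hN
  have hNpos : (0 : ℝ) < N := by exact_mod_cast hN1
  have hfpos : (0 : ℝ) < f N := by exact_mod_cast hf N
  have h0 : 0 ≤ Real.log (f N : ℝ) := Real.log_natCast_nonneg _
  rw [Real.dist_eq, sub_zero, abs_of_nonneg (div_nonneg h0 (by positivity))]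
  refine lt_of_le_of_lt ?_ (hN₀ N ((le_max_left _ _).trans hN))
  set e := d * (2 * n * (N / M) + M) * N ^ (d - 1) with he
  have hfle : f N ≤ (C + 1) * N ^ d * c ^ e := by
    refine (hC N).trans ?_
    have h1 : 1 ≤ c ^ e := Nat.one_le_pow _ _ hc
    have h2 : 1 ≤ N ^ d := Nat.one_le_pow _ _ hN1
    nlinarith [Nat.mul_le_mul_left (C * N ^ d) h1, Nat.mul_le_mul_right (c ^ e) h2]
  have hlog : Real.log (f N : ℝ) ≤ Real.log (C + 1) + d * Real.log N + e * Real.log c := by
    have hc' : (0 : ℝ) < c := by exact_mod_cast hc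
    have h1 : (f N : ℝ) ≤ ((C : ℝ) + 1) * (N : ℝ) ^ d * (c : ℝ) ^ e := by exact_mod_cast hfle
    have h2 := Real.log_le_log hfpos h1
    rw [Real.log_mul (by positivity) (by positivity), Real.log_mul (by positivity) (by positivity),
      Real.log_pow, Real.log_pow] at h2
    exact h2
  have hNd : (N : ℝ) ^ d = N * (N : ℝ) ^ (d - 1) := by
    rw [← pow_succ', Nat.sub_add_cancel hd]
  have hpow1 : (1 : ℝ) ≤ (N : ℝ) ^ (d - 1) := one_le_pow₀ (by exact_mod_cast hN1)
  have he' : (e : ℝ) ≤ d * (2 * n / M + M / N) * (N : ℝ) ^ d := by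
    have h1 : ((N / M : ℕ) : ℝ) ≤ N / M := Nat.cast_div_le
    have h2 : (e : ℝ) = d * (2 * n * ((N / M : ℕ) : ℝ) + M) * (N : ℝ) ^ (d - 1) := by
      rw [he]; push_cast; ring
    rw [h2, hNd]
    have h3 : d * (2 * n / M + M / N) * ((N : ℝ) * (N : ℝ) ^ (d - 1)) =
        d * (2 * n * ((N : ℝ) / M) + M) * (N : ℝ) ^ (d - 1) := by
      field_simp
    rw [h3]
    gcongr
  rw [div_le_iff₀ (by positivity)]
  have hA : Real.log (C + 1) + d * Real.log N ≤
      (Real.log (C + 1) + d * Real.log N) / N * (N : ℝ) ^ d := by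
    have h1 : (Real.log (C + 1) + d * Real.log N) / N * (N : ℝ) ^ d =
        (Real.log (C + 1) + d * Real.log N) * (N : ℝ) ^ (d - 1) := by
      rw [hNd]; field_simp
    rw [h1]
    apply le_mul_of_one_le_right _ hpow1
    have h2 : 0 ≤ Real.log ((C : ℝ) + 1) := Real.log_nonneg (by linarith [(Nat.cast_nonneg C : (0:ℝ) ≤ C)])
    have h3 := Real.log_natCast_nonneg N
    positivity
  have hB : (e : ℝ) * Real.log c ≤ d * (2 * n / M + M / N) * Real.log c * (N : ℝ) ^ d := by
    calc (e : ℝ) * Real.log c ≤ d * (2 * n / M + M / N) * (N : ℝ) ^ d * Real.log c :=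
          mul_le_mul_of_nonneg_right he' hlc
      _ = _ := by ring
  rw [add_mul]
  linarith

/-- Every shift that is isolated in `𝒯^d` has topological entropy `0`. -/
theorem result (d : ℕ) (hd : 1 ≤ d) (X : Set (Conf d)) (hX : IsIsolated X) : HasEntropy X 0 := by
  obtain ⟨⟨⟨⟨A, hA⟩, hcpt, hinv⟩, x, hx, hdense⟩, -⟩ := id hX
  obtain ⟨n, hn⟩ := isolated_imp hX hx hdense
  have hxA : ∀ v, x v ∈ A := hA x hx
  have hLang : ∀ N, Lang N X = range (pat N x) := by
    intro N
    ext p
    constructor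
    · rintro ⟨z, hz, u, rfl⟩
      obtain ⟨w, hw⟩ := closure_agree _ (hdense hz)
        (Finset.univ.image fun v : Fin d → Fin N => u + fun i => ((v i : ℕ) : ℤ))
      refine ⟨w + u, ?_⟩
      funext v
      have := hw _ (Finset.mem_image_of_mem _ (Finset.mem_univ v))
      unfold pat
      rw [← this]
      simp [sh, add_assoc]
    · rintro ⟨u, rfl⟩
      exact ⟨x, hx, u, rfl⟩
  unfold HasEntropy
  simp only [hLang]
  apply entropy_of_bound hd (Finset.card_pos.2 ⟨_, hxA 0⟩) (n := n)
  · intro N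
    have hfin : (range (pat N x)).Finite := by
      apply (Set.Finite.pi' (t := fun _ : Fin d → Fin N => (A : Set ℤ))
        fun _ => A.finite_toSet).subset
      rintro _ ⟨u, rfl⟩ v
      exact hxA _
    exact (Set.ncard_pos hfin).2 (range_nonempty _)
  · intro M hM
    exact count hxA hM fun a b hbd ha hb => determined hxA hn hbd ha hb

end Pool.Agent.Results.MP_86c582_an.ZeroEntropy
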